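import Mathlib
import Pool.Agent.V8H25.AS.Exp

/-!
# Systems `P_j(z, e^(z_j)) = 0` in a rational space

Let `V` be an irreducible subvariety of `G_n` of dimension `n`, whose projection to `ℂ^n` is
dominant. Then every coordinate `y_j` is an algebraic function of `x` on `V`, so that `V` satisfies
equations `P_1(x, y_1) = 0, ..., P_n(x, y_n) = 0`. Axiom (SEAC) (i) asks for generic exponential
points of `V`. In the deductions of the genericity from (SC) for one equation (Mantova, Zannier)
the main step is to show that only finitely many of the generic exponential points are in a given
rational space of finite dimension. The theorem is this step, without (SC), for systems in any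
number of variables, for all the translates of `V` by algebraic points of the torus together, with
an explicit bound for the number of the points. The bound depends only on the dimension of the
space and on the degrees. The theorem describes also the exception: the lines which are contained
in `V` in the direction of a logarithm of an algebraic point.

The proof. Let `z` be a generic solution. The logarithmic differential of `e^(z_j)` is a linear
combination of the differentials of `z_1, ..., z_n`, whose coefficients are algebraic functions of
`z`. A linear elimination of `y_j` (dimension count) gives for every tangent vector a polynomial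
equation of degree at most `(2a + 1) b` for the combination of these coefficients; the rational
coordinates of `z` satisfy the equations which are obtained from all the derivations of `ℂ` over
`F`. A rational vector which is tangent to all these equations at `z` has a logarithmic
differential which is exact, so that it is the logarithm of an algebraic point (Rosenlicht), and
then the direction of a line in `V`. So the solutions are isolated zeros of a system of equations
of degree at most `(2a + 1) b`.
-/

set_option autoImplicit false

open Module

namespace Pool.Agent.Results.MP_209724_lc.AlgebraicSystems

open Pool.Agent.V8H25.AS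

/-- **Main result.** Let `F` be a subfield of `ℂ`, `U` a `ℚ`-space of vectors in `ℂ^n` of finite
dimension `N`, and let `P_1, ..., P_n` be nonzero polynomials in `x_1, ..., x_n, y` over `F`, of
total degree at most `a` in `x_1, ..., x_n` and of degree at most `b` in `y`. A solution is a `z` in
`ℂ^n` with `P_j(z, c_j e^(z_j)) = 0` for all `j`, for some nonzero `c_1, ..., c_n` algebraic over
`F` (for instance `c_j = 1`). A vector `u` is a logarithm if all the `e^(u_i)` are algebraic
over `F`. A solution is generic if `z_1, ..., z_n` are algebraically independent over the field
generated by `F` and the coordinates of the logarithms in `U`.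

(1) There are at most `binom((2a + 1) b N, N)` generic solutions `z` in `U`, for some `c`, such that
`e^(z_1), ..., e^(z_n)` are algebraically independent over `F`, or such that the set of the
equations `P_j(x, y_j) = 0` contains no line `(z + t u, c e^z)`, `t` in `ℂ`, where `u` is a nonzero
logarithm in `U`. For instance all generic solutions in `U` count, if `0` is the only logarithm
in `U`.

(2) If the set of the equations contains a line `(z + t u, c e^z)`, `t` in `ℂ`, for some generic
solution `z` in `U` and its `c`, where `u` is a nonzero logarithm in `U`, then there are infinitely
many generic solutions in `U`. -/
theorem result (F : IntermediateField ℚ ℂ) {n : ℕ} (U : Submodule ℚ (Fin n → ℂ))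
    (hfd : FiniteDimensional ℚ U) (P : Fin n → Polynomial (MvPolynomial (Fin n) F))
    (hP : ∀ j, P j ≠ 0) (a b : ℕ) (ha : ∀ j i, ((P j).coeff i).totalDegree ≤ a)
    (hb : ∀ j, (P j).natDegree ≤ b) :
    {z : Fin n → ℂ | z ∈ U ∧ AlgebraicIndependent (LogField F U) z ∧
      ∃ c : Fin n → ℂ, IsSolution F P z c ∧
        (AlgebraicIndependent F (fun j => Complex.exp (z j)) ∨
          ¬ LineThrough F U P z (fun j => c j * Complex.exp (z j)))}.encard ≤
      (((2 * a + 1) * b * finrank ℚ U).choose (finrank ℚ U) : ℕ) ∧
    ∀ z c : Fin n → ℂ, z ∈ U → AlgebraicIndependent (LogField F U) z → IsSolution F P z c →
      LineThrough F U P z (fun j => c j * Complex.exp (z j)) →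
      {z : Fin n → ℂ | z ∈ U ∧ AlgebraicIndependent (LogField F U) z ∧
        ∃ c : Fin n → ℂ, IsSolution F P z c}.Infinite :=
  ⟨exp_count U P hP a b ha hb, fun _ _ h1 h2 h3 h4 => exp_line U P h1 h2 h3 h4⟩

end Pool.Agent.Results.MP_209724_lc.AlgebraicSystems
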