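import Pool.Agent.V8H73.SE.Cnt
import Pool.Agent.V8H73.SF.Pm

/-!
# All exponential points of random complete intersections together

Let `P_1, …, P_n` be polynomials in `x_1, …, x_n, y_1, …, y_n`, with supports contained in given finite sets of
monomials each of which contains `1, x_l, y_l, x_l y_l` for all `l` (for instance all polynomials of given degrees at
least two). The solutions `z` in `ℂ^n` of the system `P_j(z, e^z) = 0`, `e^z = (e^(z_1), …, e^(z_n))`, are the
exponential points `(z, e^z)` of the variety `V = {P_1 = ⋯ = P_n = 0}` in `G_n`, in general of dimension `n`. The axiom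
(SEAC) (i) asks for an exponential point whose transcendence degree over a field of definition is `dim V = n`, and (SC)
bounds the transcendence degree of tuples of solutions from below by the linear dimension.

(A) **Almost all complex and almost all real systems.** Let `K` be a countable field of complex numbers. For almost all
vectors `c` of complex coefficients, and also for almost all vectors `c` of real coefficients, there are infinitely
many solutions in `ℂ^n`, all of them are nondegenerate, and the coefficients `c` and all coordinates of ALL solutions
together are algebraically independent over `K`. In particular every solution has transcendence degree `n` over `K(c)`,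
and all coordinates of all solutions together are algebraically independent over `K(c)` and linearly independent over
the rational numbers. Moreover each permutation `π` of the infinite set of the solutions is induced by an automorphism
`σ` of the field of complex numbers over `K(c, 2 π i)`, such that `σ(z_l) = π(z)_l` for all solutions `z` and
`σ(e^x) = e^(σ(x))` for all `x` in the vector space over `ℚ` generated by `2 π i` and all coordinates of all solutions.
So `σ` is an automorphism of the partial exponential field which is given by the restriction of `exp` to this vector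
space. (In the pseudo-exponential field any two tuples of the same quantifier-free type are exchanged by an
automorphism.)

(B) **Integral systems.** There are radii `R(k) ≥ k`, depending only on the supports, with the following property. Let
`ξ_0, ξ_1, …` be arbitrary complex numbers. There is a function `ω(T) → ∞` such that for all but at most the proportion
`1 / ω(T)` of the integral systems with coefficients bounded by `T` the following is true, with `k = ω(T)`: there are
at least `k` solutions in the polydisc `|z_l| ≤ R(k)`, all solutions in this polydisc are nondegenerate, and all the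
coordinates of all these solutions together satisfy no nonzero algebraic relation of degree at most `k` in each of them,
with coefficients `∑_{b < k} ξ_b c_b`, the `c_b` integers of a number field of degree at most `k` with conjugates
bounded by `T ^ k`.

There is no hypothesis of independence.

Proof. Near systems without degenerate solutions the solutions `ζ_i(c)` are analytic functions of the coefficients. The
main point is that no nontrivial linear combination of the coordinates `ζ_(i, l)` is constant. Derivatives with respect
to the coefficients of the equation `j` give `∑ w_(i, j) φ(ζ_i, e^(ζ_i)) = 0` for all monomials `φ` of this equation,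
where `w_i` is the solution of `w_i J_i = m_i` with the Jacobian matrix `J_i`. By induction and Ax's theorem all
coordinates of all but one of the `ζ_i` are algebraically independent over the field `k` of the rational functions of
`c`, and the coordinates of the last one are affine functions of the other ones, with invertible matrices. Derivations
of the field of the analytic functions show first that the derivatives of the last `w` vanish and then that the
exponentials of the coordinates of the last `ζ` are algebraic over `k`. Then the polynomials `P_j(x, e^ζ)` are zero as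
polynomials in `x`, and this forces `ζ = 0`, which is impossible. By Ax's theorem all the coordinates are algebraically
independent over `k`. This implies the independence in (A), because the systems with degenerate solutions are a null
set, by Sard's theorem (for real systems applied in the directions of the coefficients of `1` and `x_l` if `z_l` is not
real). For (B) one uses the counting theorem for values of independent analytic functions at rational points (library:
`V8H73.RN`, `X255.RH`) near all points of the compact complement of a neighbourhood of this null set.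

Permutations (`V8H73.SE.Inv`, `V8H73.SE.Hom`, `V8H73.SF`). All exponential points lie on one irreducible component
of `V`, which is invariant under the automorphisms of the field `ℂ` over `K(c)`; these statements follow from the
independence, because it implies that different solutions are conjugate. If `z_1, …, z_k` are different solutions, then
`(z_k, e^(z_k))` is generic in the component over the field `L` generated over `K(c)` by the `(z_i, e^(z_i))` with
`i < k`. All points of the component which are generic over `L` are conjugate over `L`. By induction any two `k`-tuples of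
different solutions are conjugate over `K(c)`, together with their exponentials, and the same arguments for the
exponential points `(z / M, e^(z / M))` of the system `P_j(M x, y_1 ^ M, …, y_n ^ M) = 0` give the `M`-th roots of the
exponentials. So the families `(z, e^(z / M))_(z, M)` and `(π(z), e^(π(z) / M))_(z, M)` satisfy the same relations, and an
isomorphism of countable fields over `K(c, 2 π i)` extends to `ℂ`.

Existence (`V8H73.SE`). For almost all systems there are solutions `z_l = 2 π i N^(a_l) + b_l log N + w_l` for all large
`N`, with bounded `w_l`, by the implicit function theorem at infinity, for suitable integral weights `a_l > 0` and `b_l`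
of the variables `x_l` and `y_l` for which the leading parts of the equations have a nondegenerate common zero in the
torus. To find the weights take a zero `y` in the torus of the system `P_j(2 π i T, y)`, `T` transcendental, and the
valuations of the `y_l` for a valuation with `T` large; the transfer principle for algebraically closed fields gives
complex zeros of the leading parts, which are nondegenerate for independent coefficients. Nondegenerate solutions
persist, so almost all integral systems have many solutions in large polydiscs.
-/

set_option autoImplicit false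

open Filter Topology NumberField MeasureTheory

namespace Pool.Agent.Results.MP_209724_lc.AllExponentialPoints

/-- the exponents of the monomials in `x_1, …, x_n, y_1, …, y_n` -/
abbrev Exponent (n : ℕ) : Type := Fin n ⊕ Fin n →₀ ℕ

variable {n : ℕ} {S : Finset (Fin n × Exponent n)}

/-- the values `P_j(z, e^z)`, where `P_j` is the sum of the monomials `c_(j, m) x^(m_x) y^(m_y)` with `(j, m)` in `S` -/
noncomputable def value (c : S → ℂ) (z : Fin n → ℂ) (j : Fin n) : ℂ :=
  ∑ q : S, if q.1.1 = j then
    c q * ∏ l, z l ^ q.1.2 (Sum.inl l) * Complex.exp (z l) ^ q.1.2 (Sum.inr l) else 0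

/-- the vector space over `ℚ` generated by `2 π i` and all coordinates of all solutions -/
noncomputable def pointSpace (c : S → ℂ) : Submodule ℚ ℂ :=
  Submodule.span ℚ {x | x = 2 * Real.pi * Complex.I ∨ ∃ z : Fin n → ℂ, value c z = 0 ∧ ∃ l, z l = x}

/-- Every permutation `π` of the solutions is induced by an automorphism `σ` of the field of complex numbers over
`K(c, 2 π i)` which maps the coordinates of `z` to those of `π z` and satisfies `σ(e^x) = e^(σ(x))` for all `x` in the
vector space over `ℚ` generated by `2 π i` and all coordinates of all solutions. -/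
def PermutedByAutomorphisms (K : Subfield ℂ) (c : S → ℂ) : Prop :=
  ∀ π : Equiv.Perm {z : Fin n → ℂ // value c z = 0}, ∃ σ : ℂ ≃+* ℂ, (∀ a ∈ K, σ a = a) ∧ (∀ q, σ (c q) = c q) ∧
    σ (2 * Real.pi * Complex.I) = 2 * Real.pi * Complex.I ∧
    (∀ (z : {z : Fin n → ℂ // value c z = 0}) (l : Fin n), σ (z.1 l) = (π z).1 l) ∧
    ∀ x ∈ pointSpace c, σ (Complex.exp x) = Complex.exp (σ x)

/-- There are infinitely many solutions, all solutions are nondegenerate, the coefficients and all coordinates of all
solutions together are algebraically independent over `K`, and all permutations of the solutions are induced by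
automorphisms over `K(c, 2 π i)` which respect `exp` on the vector space generated by the coordinates. -/
def Generic (K : Subfield ℂ) (c : S → ℂ) : Prop :=
  {z | value c z = 0}.Infinite ∧ (∀ z, value c z = 0 → Function.Bijective (fderiv ℂ (value c) z)) ∧
  AlgebraicIndependent K (Sum.elim c fun q : {z : Fin n → ℂ // value c z = 0} × Fin n => q.1.1 q.2) ∧
  PermutedByAutomorphisms K c

/-- The numbers `x q` satisfy no nonzero polynomial relation `R` of degree at most `k` in each of them with coefficients
`∑_{b < k} ξ_b c_b`, where the `c_b` are integers of a number field of degree at most `k` all of whose conjugates are at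
most `T ^ k`. -/
def NoRelation {Q : Type} (ξ : ℕ → ℂ) (k : ℕ) (T : ℝ) (x : Q → ℂ) : Prop :=
  ∀ (F : Type) [Field F] [NumberField F], Module.finrank ℚ F ≤ k → ∀ (io : F →+* ℂ) (R : MvPolynomial Q ℂ),
    (∀ y, R.degreeOf y ≤ k) →
    (∀ m, ∃ c : Fin k → 𝓞 F, (∀ b (φ : F →+* ℂ), ‖φ (c b : F)‖ ≤ T ^ k) ∧ R.coeff m = ∑ b : Fin k, ξ b * io (c b : F)) →
    MvPolynomial.eval x R = 0 → R = 0

/-- the integral vectors bounded by `T` -/
noncomputable def box (S : Finset (Fin n × Exponent n)) (T : ℕ) : Finset (S → ℤ) :=
  Fintype.piFinset fun _ => Finset.Icc (-(T : ℤ)) T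

/-- There are at least `k` solutions in the polydisc of radius `R`, all of them are nondegenerate and their coordinates
together satisfy no relation. -/
def Good (ξ : ℕ → ℂ) (k R : ℕ) (T : ℝ) (w : S → ℤ) : Prop :=
  (k : ℕ∞) ≤ {z : Fin n → ℂ | ‖z‖ ≤ R ∧ value (fun q => (w q : ℂ)) z = 0}.encard ∧
  (∀ z : Fin n → ℂ, ‖z‖ ≤ R → value (fun q => (w q : ℂ)) z = 0 →
    Function.Bijective (fderiv ℂ (value fun q => (w q : ℂ)) z)) ∧
  NoRelation ξ k T fun q : {z : Fin n → ℂ // ‖z‖ ≤ R ∧ value (fun q => (w q : ℂ)) z = 0} × Fin n => q.1.1 q.2

section aux

open Pool.Agent.V8H73.AN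

theorem value_eq (c : S → ℂ) : value c = Ph c := by
  funext z j
  rw [Ph_sum]
  unfold value
  refine Finset.sum_congr rfl fun q _ => ?_
  split_ifs
  · congr 1
    unfold mo
    rw [MvPolynomial.eval_monomial, one_mul, Finsupp.prod_fintype _ _ fun _ => pow_zero _, Fintype.prod_sum_type,
      Finset.prod_mul_distrib]
    rfl
  · rfl

theorem bij_of_det {c : S → ℂ} {z : Fin n → ℂ} (h : (JJ c z (ez z)).det ≠ 0) :
    Function.Bijective (fderiv ℂ (value c) z) := by
  rw [value_eq, (Ph_deriv c z).fderiv]
  obtain ⟨e, he⟩ := Dl_inv h
  rw [← he]
  exact e.bijective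

theorem rat_of {σ : ℂ ≃+* ℂ} {w : ℂ}
    (h : ∀ m : ℕ, σ (Complex.exp (w / (m + 1 : ℕ))) = Complex.exp (σ w / (m + 1 : ℕ))) (r : ℚ) :
    σ (Complex.exp (r * w)) = Complex.exp (r * σ w) := by
  obtain ⟨m, hm⟩ : ∃ m, r.den = m + 1 := ⟨r.den - 1, by have := r.pos; omega⟩
  have h1 : ∀ x : ℂ, (r : ℂ) * x = (r.num : ℂ) * (x / (m + 1 : ℕ)) := by
    intro x
    rw [← hm]
    have h2 : (r : ℂ) = (r.num : ℂ) / (r.den : ℂ) := by
      exact_mod_cast (Rat.num_div_den r).symm
    rw [h2]
    ring
  rw [h1, h1, Complex.exp_int_mul, map_zpow₀, h, Complex.exp_int_mul]

theorem perm_of (hS : Four S) (hn : 0 < n) {K K' : Subfield ℂ} [Countable K'] (hKK : K ≤ K')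
    (h2 : (2 * Real.pi * Complex.I : ℂ) ∈ K') (h3 : ∀ m : ℕ, Complex.exp (2 * Real.pi * Complex.I / (m + 1 : ℕ)) ∈ K')
    {c : S → ℂ} (hc : Pool.Agent.V8H73.SE.Cm K' c)
    (h : AlgebraicIndependent K' (Sum.elim c fun q : {z : Fin n → ℂ // Pool.Agent.V8H73.SE.val c z = 0} × Fin n =>
      (q.1 : Fin n → ℂ) q.2)) : PermutedByAutomorphisms K c := by
  intro π
  obtain ⟨σ, g1, g2, g3⟩ := Pool.Agent.V8H73.SF.perm_dv hS ⟨0, hn⟩ hc h π
  refine ⟨σ, fun a ha => g1 a (hKK ha), g2, g1 _ h2, fun z l => (g3 z l).1, fun x hx => ?_⟩
  have key : ∀ r : ℚ, σ (Complex.exp (r * x)) = Complex.exp (r * σ x) := by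
    unfold pointSpace at hx
    induction hx using Submodule.span_induction with
    | mem x hx =>
      rcases hx with rfl | ⟨z, hz, l, rfl⟩
      · exact rat_of fun m => by rw [g1 _ h2]; exact g1 _ (h3 m)
      · refine rat_of fun m => ?_
        have h5 := (g3 ⟨z, hz⟩ l).2 m
        rw [← (g3 ⟨z, hz⟩ l).1] at h5
        exact h5
    | zero =>
      intro r
      rw [mul_zero, Complex.exp_zero, map_one, map_zero, mul_zero, Complex.exp_zero]
    | add x y _ _ hx hy =>
      intro r
      rw [mul_add, Complex.exp_add, map_mul, hx, hy, map_add, mul_add, Complex.exp_add]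
    | smul s x _ hx =>
      intro r
      have h5 : ∀ y : ℂ, (r : ℂ) * ((s : ℂ) * y) = ((r * s : ℚ) : ℂ) * y := by
        intro y
        push_cast
        ring
      have h6 : s • x = (s : ℂ) * x := Rat.smul_def s x
      have h7 : σ (s : ℂ) = s := map_ratCast σ s
      rw [h6, map_mul, h7, h5, h5]
      exact hx _
  have h5 := key 1
  rwa [Rat.cast_one, one_mul, one_mul] at h5

theorem generic_of (hS : Four S) (hn : 0 < n) {K K' : Subfield ℂ} [Countable K'] (hKK : K ≤ K')
    (h2 : (2 * Real.pi * Complex.I : ℂ) ∈ K') (h3 : ∀ m : ℕ, Complex.exp (2 * Real.pi * Complex.I / (m + 1 : ℕ)) ∈ K')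
    {c : S → ℂ} (hc : Pool.Agent.V8H73.SE.Cm K' c)
    (h : AlgebraicIndependent K' (Sum.elim c fun q : {z : Fin n → ℂ // Pool.Agent.V8H73.SE.val c z = 0} × Fin n =>
      (q.1 : Fin n → ℂ) q.2)) : Generic K c :=
  ⟨hc.inf, fun z hz => bij_of_det (hc.nd z hz), Pool.Agent.V8H73.SE.ind_mono hKK h, perm_of hS hn hKK h2 h3 hc h⟩

end aux

open scoped Classical in
/-- **All exponential points of random complete intersections together.** Let the supports of `P_1, …, P_n` contain
`1, x_l, y_l, x_l y_l` for all `l`, `n ≥ 1`. (A) For every countable field `K` and almost all complex and almost all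
real vectors `c` of coefficients the system `P_j(z, e^z) = 0` has infinitely many solutions, all solutions are
nondegenerate, the coefficients and all coordinates of all solutions together are algebraically independent over `K`,
and each permutation of the solutions is induced by an automorphism of the field `ℂ` over `K(c, 2 π i)` which respects
`exp` on the vector space over `ℚ` generated by `2 π i` and all coordinates of all solutions. (B) There are `R(k) ≥ k` such that for all complex `ξ_b` there is `ω(T) → ∞` such that among all integral systems
with coefficients bounded by `T` at most the proportion `1 / ω(T)` is not good: there are at least `k = ω(T)` solutions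
with `|z_l| ≤ R(k)`, all solutions with `|z_l| ≤ R(k)` are nondegenerate and their coordinates together satisfy no
relation of degree at most `k` and height at most `T ^ k`. -/
theorem result (hn : 0 < n) (S : Finset (Fin n × Exponent n)) (h1 : ∀ j, (j, 0) ∈ S)
    (hx : ∀ j l, (j, Finsupp.single (Sum.inl l) 1) ∈ S) (hy : ∀ j l, (j, Finsupp.single (Sum.inr l) 1) ∈ S)
    (hxy : ∀ j l, (j, Finsupp.single (Sum.inl l) 1 + Finsupp.single (Sum.inr l) 1) ∈ S) :
    (∀ (K : Subfield ℂ) [Countable K],
      (∀ᵐ c : S → ℂ, Generic K c) ∧ ∀ᵐ c : S → ℝ, Generic K fun q => (c q : ℂ)) ∧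
    ∃ R : ℕ → ℕ, (∀ k, k ≤ R k) ∧ ∀ ξ : ℕ → ℂ, ∃ ω : ℕ → ℕ, Tendsto ω atTop atTop ∧ Monotone ω ∧ ∀ T : ℕ,
      ω T * ((box S T).filter fun w => ¬ Good ξ (ω T) (R (ω T)) T w).card ≤ (box S T).card := by
  have hS : Pool.Agent.V8H73.AN.Four S := ⟨h1, hx, hy, hxy⟩
  constructor
  · intro K _
    let K' : Subfield ℂ := Subfield.closure ((K : Set ℂ) ∪ ({2 * Real.pi * Complex.I} ∪
      Set.range fun m : ℕ => Complex.exp (2 * Real.pi * Complex.I / (m + 1 : ℕ))))
    have hK' : Countable K' := Pool.Agent.V8H73.SF.count_cl' _ ((Set.countable_coe_iff.1 (inferInstanceAs (Countable K))).union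
      ((Set.countable_singleton _).union (Set.countable_range _)))
    have hKK : K ≤ K' := fun x hx => Subfield.subset_closure (Or.inl hx)
    have h2 : (2 * Real.pi * Complex.I : ℂ) ∈ K' := Subfield.subset_closure (Or.inr (Or.inl rfl))
    have h3 : ∀ m : ℕ, Complex.exp (2 * Real.pi * Complex.I / (m + 1 : ℕ)) ∈ K' := fun m =>
      Subfield.subset_closure (Or.inr (Or.inr ⟨m, rfl⟩))
    constructor
    · filter_upwards [(Pool.Agent.V8H73.SE.ae_both hS hn K').1] with c hc
      exact generic_of hS hn hKK h2 h3 hc.1 hc.2
    · filter_upwards [(Pool.Agent.V8H73.SE.ae_both hS hn K').2] with c hc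
      exact generic_of hS hn hKK h2 h3 hc.1 hc.2
  · obtain ⟨R, hR, h⟩ := Pool.Agent.V8H73.SE.int_all hS hn
    refine ⟨R, hR, fun ξ => ?_⟩
    obtain ⟨ω, h1, h2, h3⟩ := h ξ
    refine ⟨ω, h1, h2, fun T => le_trans (Nat.mul_le_mul_left _ (Finset.card_le_card fun w hw => ?_)) (h3 T)⟩
    rw [Finset.mem_filter] at hw ⊢
    refine ⟨hw.1, fun hg => hw.2 ?_⟩
    have h5 : ∀ f g : (Fin n → ℂ) → Fin n → ℂ, f = g → ∀ k R : ℕ, ∀ T : ℝ,
        (((k : ℕ∞) ≤ {z : Fin n → ℂ | ‖z‖ ≤ R ∧ f z = 0}.encard) ∧
          NoRelation ξ k T (fun q : {z : Fin n → ℂ // ‖z‖ ≤ R ∧ f z = 0} × Fin n => (q.1 : Fin n → ℂ) q.2)) →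
        (((k : ℕ∞) ≤ {z : Fin n → ℂ | ‖z‖ ≤ R ∧ g z = 0}.encard) ∧
          NoRelation ξ k T (fun q : {z : Fin n → ℂ // ‖z‖ ≤ R ∧ g z = 0} × Fin n => (q.1 : Fin n → ℂ) q.2)) := by
      rintro f g rfl k R T h
      exact h
    have h6 := h5 _ _ (value_eq fun q => (w q : ℂ)).symm (ω T) (R (ω T)) T ⟨hg.1, hg.2.2⟩
    refine ⟨h6.1, fun z hz hz0 => ?_, h6.2⟩
    rw [value_eq] at hz0
    exact bij_of_det (hg.2.1 z hz hz0)

end Pool.Agent.Results.MP_209724_lc.AllExponentialPoints
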