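import Pool.Agent.V8H73.SF.Dv

/-!
# Pseudo-exponentiations and `exp` on the exponential points of random complete intersections

A field `K` with a pseudo-exponentiation which has the cardinality of `ℂ` is an algebraically closed field of
characteristic zero and so isomorphic to `ℂ` as a field. So Zilber's conjecture is the assertion that for each
pseudo-exponentiation `ex` on the field `ℂ` there is an automorphism `σ` of the field `ℂ` with `σ(e^x) = ex(σ(x))` for
all `x`. Here such `σ` are constructed for all `x` in vector spaces of infinite dimension over `ℚ`, without any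
hypothesis.

Let `P_1, …, P_n` be polynomials in `x_1, …, x_n, y_1, …, y_n`, with supports contained in given finite sets of
monomials each of which contains `1, x_l, y_l, x_l y_l` for all `l` (for instance all polynomials of given degrees at
least two), and with the vector `c` of coefficients. Let `ex` be any homomorphism from `ℂ` to `ℂ^*` with the kernel
`τ ℤ` for a transcendental number `τ`, for which the axiom (SEAC) (i) holds; for instance a pseudo-exponentiation. For
almost all vectors `c` of complex coefficients, and also for almost all vectors `c` of real coefficients, there is an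
automorphism `σ` of the field `ℂ` with the following properties.

* `σ` fixes the coefficients `c`, and it maps the kernel of `exp` onto the kernel of `ex`.
* `σ(e^x) = ex(σ(x))` for all `x` in the vector space over `ℚ` which is generated by `2 π i` and all coordinates `z_l`
  of all solutions `z` in `ℂ^n` of the system `P_j(z, e^z) = 0`, `j ≤ n`. There are infinitely many solutions.

So `σ` is an isomorphism between `(ℂ, exp)` and `(ℂ, ex)` as far as only exponentials of elements of this vector space
are considered, that is, an isomorphism of partial exponential fields. In particular it maps the exponential points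
`(z, e^z)` of the variety `{P_1 = ⋯ = P_n = 0}` to `ex`-exponential points of the same variety.

Proof. By Ax's theorem `c` and the coordinates of all solutions `z` together are algebraically independent over the
countable field `ℚ(2 π i, τ)`, and there are infinitely many solutions (`V8H73.AN`, `V8H73.SE`). The variety `V` of the
system is irreducible, free, rotund, of dimension `n`, and different exponential points are independent generic points of
`V`. By (SEAC) (i) for `ex` there is a sequence of `ex`-exponential points `(x, ex(x))` of `V` each of which is generic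
in `V` over `ℚ(τ, c)` and the preceding ones. Since `V` is irreducible over `ℂ`, the independent sequences of generic
points of `V`, together with `2 π i` and `τ`, have the same algebraic relations over `ℚ(c)`; the corresponding
isomorphism of countable fields extends to `ℂ`. To include the roots `e^(z_l / M)` of the exponentials, the same
arguments are applied to the variety of the system `P_j(M x, y_1 ^ M, …, y_n ^ M) = 0` (library: `V8H73.SF`), which is
also irreducible: all its exponential points `(z / M, e^(z / M))` lie on one component, because different ones are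
conjugate over `ℚ(2 π i, c)`. The automorphism is prescribed on the roots of unity by `e^(2 π i / M) ↦ ex(τ / M)`; this is
possible, since the cyclotomic polynomials are irreducible.
-/

set_option autoImplicit false

open MeasureTheory MvPolynomial

namespace Pool.Agent.Results.MP_209724_lc.IsomorphismOnPoints

/-- the exponents of the monomials in `x_1, …, x_n, y_1, …, y_n` -/
abbrev Exponent (n : ℕ) : Type := Fin n ⊕ Fin n →₀ ℕ

variable {n : ℕ} {S : Finset (Fin n × Exponent n)}

/-- the values `P_j(z, e^z)`, where `P_j` is the sum of the monomials `c_(j, m) x^(m_x) y^(m_y)` with `(j, m)` in `S` -/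
noncomputable def value (c : S → ℂ) (z : Fin n → ℂ) (j : Fin n) : ℂ :=
  ∑ q : S, if q.1.1 = j then
    c q * ∏ l, z l ^ q.1.2 (Sum.inl l) * Complex.exp (z l) ^ q.1.2 (Sum.inr l) else 0

/-- the coordinate functions in the function field of the variety of a prime ideal -/
noncomputable def coord (P : Ideal (MvPolynomial (Fin n ⊕ Fin n) ℂ)) [P.IsPrime] (o : Fin n ⊕ Fin n) :
    FractionRing (MvPolynomial (Fin n ⊕ Fin n) ℂ ⧸ P) :=
  algebraMap (MvPolynomial (Fin n ⊕ Fin n) ℂ ⧸ P) (FractionRing (MvPolynomial (Fin n ⊕ Fin n) ℂ ⧸ P))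
    (Ideal.Quotient.mk P (X o))

/-- the variety meets `G_n = ℂ^n × (ℂ^*)^n` and is free -/
def Free (P : Ideal (MvPolynomial (Fin n ⊕ Fin n) ℂ)) [P.IsPrime] : Prop :=
  (∀ i : Fin n, (X (Sum.inr i) : MvPolynomial (Fin n ⊕ Fin n) ℂ) ∉ P) ∧
  (∀ m : Fin n → ℤ, m ≠ 0 → ∀ b : ℂ, ∑ i, (m i : FractionRing (MvPolynomial (Fin n ⊕ Fin n) ℂ ⧸ P)) *
    coord P (Sum.inl i) ≠ algebraMap ℂ (FractionRing (MvPolynomial (Fin n ⊕ Fin n) ℂ ⧸ P)) b) ∧
  ∀ m : Fin n → ℤ, m ≠ 0 → ∀ b : ℂ, ∏ i, coord P (Sum.inr i) ^ m i ≠
    algebraMap ℂ (FractionRing (MvPolynomial (Fin n ⊕ Fin n) ℂ ⧸ P)) b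

/-- the variety is rotund: for each integral matrix with `k` independent rows the image has dimension at least `k` -/
def Rotund (P : Ideal (MvPolynomial (Fin n ⊕ Fin n) ℂ)) [P.IsPrime] : Prop :=
  ∀ (k : ℕ) (M : Fin k → Fin n → ℤ), LinearIndependent ℤ M → ∃ s : Finset (Fin k ⊕ Fin k), s.card = k ∧
    AlgebraicIndependent ℂ (fun j : s => Sum.elim
      (fun r : Fin k => ∑ i, (M r i : FractionRing (MvPolynomial (Fin n ⊕ Fin n) ℂ ⧸ P)) * coord P (Sum.inl i))
      (fun r : Fin k => ∏ i, coord P (Sum.inr i) ^ M r i) (j : Fin k ⊕ Fin k))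

/-- the variety is defined over the field `K` -/
def DefinedOver (K : Subfield ℂ) (P : Ideal (MvPolynomial (Fin n ⊕ Fin n) ℂ)) : Prop :=
  P = Ideal.span {f : MvPolynomial (Fin n ⊕ Fin n) ℂ | f ∈ P ∧ ∀ mo, f.coeff mo ∈ K}

/-- Homomorphisms `ex` from `ℂ` to `ℂ^*` with (SK) and (SEAC) (i): the kernel is `τ ℤ`, `τ` transcendental, and for each
free rotund irreducible variety defined over the field `ℚ(a)`, `a` a finite tuple, some point `(x, ex(x))` of the variety
has the transcendence degree `dim V` over `ℚ(a)`. -/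
structure Exponentiation (ex : ℂ → ℂ) : Prop where
  add : ∀ x y, ex (x + y) = ex x * ex y
  kernel : ∃ τ : ℂ, Transcendental ℚ τ ∧ ∀ x, ex x = 1 ↔ ∃ k : ℤ, x = k * τ
  closed : ∀ (n : ℕ) (P : Ideal (MvPolynomial (Fin n ⊕ Fin n) ℂ)) (_ : P.IsPrime), Free P → Rotund P →
    ∀ (m : ℕ) (a : Fin m → ℂ), DefinedOver (Subfield.closure (Set.range a)) P →
      ∃ x : Fin n → ℂ, (∀ f ∈ P, eval (Sum.elim x fun i => ex (x i)) f = 0) ∧
        Algebra.trdeg (Subfield.closure (Set.range a)) (IntermediateField.adjoin (Subfield.closure (Set.range a))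
          (Set.range x ∪ Set.range fun i => ex (x i))) =
        Algebra.trdeg ℂ (FractionRing (MvPolynomial (Fin n ⊕ Fin n) ℂ ⧸ P))

/-- the vector space over `ℚ` generated by `2 π i` and all coordinates of all solutions -/
noncomputable def pointSpace (c : S → ℂ) : Submodule ℚ ℂ :=
  Submodule.span ℚ {x | x = 2 * Real.pi * Complex.I ∨ ∃ z : Fin n → ℂ, value c z = 0 ∧ ∃ l, z l = x}

/-- There are infinitely many solutions, and an automorphism `σ` of the field `ℂ` which fixes `c`, maps the kernel of
`exp` onto the kernel of `ex` and satisfies `σ(e^x) = ex(σ(x))` for all `x` in the vector space over `ℚ` generated by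
`2 π i` and all coordinates of all solutions. -/
def IsomorphicOnPoints (ex : ℂ → ℂ) (c : S → ℂ) : Prop :=
  {z : Fin n → ℂ | value c z = 0}.Infinite ∧ ∃ σ : ℂ ≃+* ℂ, (∀ q, σ (c q) = c q) ∧
    (∀ x, Complex.exp x = 1 ↔ ex (σ x) = 1) ∧ ∀ x ∈ pointSpace c, σ (Complex.exp x) = ex (σ x)

section aux

open Pool.Agent.V8H73.SE

theorem ex_int {ex : ℂ → ℂ} (hadd : ∀ x y, ex (x + y) = ex x * ex y) (h0 : ex 0 = 1) (k : ℤ) (x : ℂ) :
    ex (k * x) = ex x ^ k := by
  obtain ⟨m, rfl | rfl⟩ := k.eq_nat_or_neg
  · rw [Int.cast_natCast, Pool.Agent.V8H73.SF.ex_nat hadd h0, zpow_natCast]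
  · have h3 := hadd (m * x) (-(m * x))
    rw [add_neg_cancel, h0] at h3
    rw [Int.cast_neg, Int.cast_natCast, neg_mul, eq_inv_of_mul_eq_one_right h3.symm,
      Pool.Agent.V8H73.SF.ex_nat hadd h0, zpow_neg, zpow_natCast]

theorem rat_of {ex : ℂ → ℂ} (hadd : ∀ x y, ex (x + y) = ex x * ex y) (h0 : ex 0 = 1) {σ : ℂ ≃+* ℂ} {w : ℂ}
    (h : ∀ m : ℕ, σ (Complex.exp (w / (m + 1 : ℕ))) = ex (σ w / (m + 1 : ℕ))) (r : ℚ) :
    σ (Complex.exp (r * w)) = ex (r * σ w) := by
  obtain ⟨m, hm⟩ : ∃ m, r.den = m + 1 := ⟨r.den - 1, by have := r.pos; omega⟩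
  have h1 : ∀ x : ℂ, (r : ℂ) * x = (r.num : ℂ) * (x / (m + 1 : ℕ)) := by
    intro x
    rw [← hm]
    have h2 : (r : ℂ) = (r.num : ℂ) / (r.den : ℂ) := by
      exact_mod_cast (Rat.num_div_den r).symm
    rw [h2]
    ring
  rw [h1, h1, Complex.exp_int_mul, map_zpow₀, h, ex_int hadd h0]

theorem iso_of (hS : Pool.Agent.V8H73.AN.Four S) (hn : 0 < n) {ex : ℂ → ℂ} (hex : Exponentiation ex) {τ : ℂ}
    (hτ : Transcendental ℚ τ) (hker : ∀ x, ex x = 1 ↔ ∃ k : ℤ, x = k * τ) {c : S → ℂ}
    (h1 : Cm (Pool.Agent.V8H73.SF.Kc Complex.exp (2 * Real.pi * Complex.I)) c ∧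
      AlgebraicIndependent (Pool.Agent.V8H73.SF.Kc Complex.exp (2 * Real.pi * Complex.I))
        (Sum.elim c fun q : {z : Fin n → ℂ // val c z = 0} × Fin n => (q.1 : Fin n → ℂ) q.2))
    (h2 : Cm (Subfield.closure {τ}) c ∧ AlgebraicIndependent (Subfield.closure {τ})
        (Sum.elim c fun q : {z : Fin n → ℂ // val c z = 0} × Fin n => (q.1 : Fin n → ℂ) q.2))
    (h3 : AlgebraicIndependent (Pool.Agent.V8H73.SF.Kc ex τ) c) : IsomorphicOnPoints ex c := by
  have hKc : Countable (Subfield.closure ({τ} : Set ℂ)) := count_cl _ (Set.finite_singleton _)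
  obtain ⟨g1, -, -⟩ := Vi_main hS ⟨0, hn⟩ h2.1 h2.2
  have hi := vi_inf' h2.1
  have hgp := gp_frac (Vi c)
  have hpoly := vi_poly' c
  have hfree : Free (Vi c) := by
    refine ⟨fun i hi' => ?_, addfree hgp h2.1 hpoly hi, mulfree hgp h2.1 hpoly hi⟩
    obtain ⟨z, hz⟩ := hi.nonempty
    have h4 := hz _ hi'
    rw [eval_X] at h4
    exact Complex.exp_ne_zero _ h4
  obtain ⟨σ, hσ1, hσ2, hσ3, hσ4⟩ := Pool.Agent.V8H73.SF.dv_main hS ⟨0, hn⟩ hex.add hτ hker h1.1 h1.2 h3 h2.1 h2.2
    (fun m a ha => by
      have hac : Countable (Subfield.closure (Set.range a)) := count_cl _ (Set.finite_range a)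
      obtain ⟨x, hx1, hx2⟩ := hex.closed n (Vi c) g1 hfree (rotund hgp h2.1 hpoly hi) m a
        (def_vi hS ⟨0, hn⟩ h2.1 h2.2 ha)
      refine ⟨x, funext fun j => hx1 _ (hpoly j), ?_⟩
      rw [dim_eq hgp h2.1 hpoly hi] at hx2
      rw [← hx2]
      have h5 : Set.range (xp ex x) = Set.range x ∪ Set.range fun i => ex (x i) := Set.Sum.elim_range _ _
      rw [h5])
  have h0 : ex 0 = 1 := (hker 0).2 ⟨0, by simp⟩
  refine ⟨h1.1.inf, σ, hσ2, fun x => ?_, fun x hx => ?_⟩
  · rw [Complex.exp_eq_one_iff, hker]
    constructor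
    · rintro ⟨k, rfl⟩
      exact ⟨k, by rw [map_mul, map_intCast, hσ1]⟩
    · rintro ⟨k, hk⟩
      refine ⟨k, σ.injective ?_⟩
      rw [hk, map_mul, map_intCast, hσ1]
  · have key : ∀ r : ℚ, σ (Complex.exp (r * x)) = ex (r * σ x) := by
      unfold pointSpace at hx
      induction hx using Submodule.span_induction with
      | mem x hx =>
        rcases hx with rfl | ⟨z, hz, l, rfl⟩
        · exact rat_of hex.add h0 fun m => by rw [hσ1]; exact hσ3 m
        · exact rat_of hex.add h0 fun m => hσ4 z hz l m
      | zero =>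
        intro r
        rw [mul_zero, Complex.exp_zero, map_one, map_zero, mul_zero, h0]
      | add x y _ _ hx hy =>
        intro r
        rw [mul_add, Complex.exp_add, map_mul, hx, hy, map_add, mul_add, hex.add]
      | smul s x _ hx =>
        intro r
        have h5 : ∀ y : ℂ, (r : ℂ) * ((s : ℂ) * y) = ((r * s : ℚ) : ℂ) * y := by
          intro y
          push_cast
          ring
        have h6 : s • x = (s : ℂ) * x := Rat.smul_def s x
        have h7 : σ (s : ℂ) = s := map_ratCast σ s
        rw [h6, map_mul, h7, h5, h5]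
        exact hx _
    have h5 := key 1
    rwa [Rat.cast_one, one_mul, one_mul] at h5

end aux

/-- **Isomorphism on the exponential points.** Let the supports of `P_1, …, P_n` contain `1, x_l, y_l, x_l y_l` for all
`l`, `n ≥ 1`. Let `ex` be a homomorphism from `ℂ` to `ℂ^*` with (SK) and (SEAC) (i), for instance a
pseudo-exponentiation. For almost all complex and almost all real vectors `c` of coefficients there is an automorphism
`σ` of the field `ℂ` which fixes `c`, maps the kernel of `exp` onto the kernel of `ex`, and satisfies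
`σ(e^x) = ex(σ(x))` for all `x` in the vector space over `ℚ` generated by `2 π i` and the coordinates of all solutions
`z` of the system `P_j(z, e^z) = 0`, which are infinite in number. -/
theorem result (hn : 0 < n) (S : Finset (Fin n × Exponent n)) (h1 : ∀ j, (j, 0) ∈ S)
    (hx : ∀ j l, (j, Finsupp.single (Sum.inl l) 1) ∈ S) (hy : ∀ j l, (j, Finsupp.single (Sum.inr l) 1) ∈ S)
    (hxy : ∀ j l, (j, Finsupp.single (Sum.inl l) 1 + Finsupp.single (Sum.inr l) 1) ∈ S)
    (ex : ℂ → ℂ) (hex : Exponentiation ex) :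
    (∀ᵐ c : S → ℂ, IsomorphicOnPoints ex c) ∧ ∀ᵐ c : S → ℝ, IsomorphicOnPoints ex fun q => (c q : ℂ) := by
  have hS : Pool.Agent.V8H73.AN.Four S := ⟨h1, hx, hy, hxy⟩
  obtain ⟨τ, hτ, hker⟩ := hex.kernel
  have hK1 := Pool.Agent.V8H73.SF.Kc_count Complex.exp (2 * Real.pi * Complex.I)
  have hK2 : Countable (Subfield.closure ({τ} : Set ℂ)) :=
    Pool.Agent.V8H73.SE.count_cl _ (Set.finite_singleton _)
  have hK3 := Pool.Agent.V8H73.SF.Kc_count ex τ
  constructor
  · filter_upwards [(Pool.Agent.V8H73.SE.ae_both hS hn (Pool.Agent.V8H73.SF.Kc Complex.exp (2 * Real.pi * Complex.I))).1,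
      (Pool.Agent.V8H73.SE.ae_both hS hn (Subfield.closure {τ})).1,
      (Pool.Agent.V8H73.SE.ae_both hS hn (Pool.Agent.V8H73.SF.Kc ex τ)).1] with c h1 h2 h3
    exact iso_of hS hn hex hτ hker h1 h2 (h3.2.comp Sum.inl Sum.inl_injective)
  · filter_upwards [(Pool.Agent.V8H73.SE.ae_both hS hn (Pool.Agent.V8H73.SF.Kc Complex.exp (2 * Real.pi * Complex.I))).2,
      (Pool.Agent.V8H73.SE.ae_both hS hn (Subfield.closure {τ})).2,
      (Pool.Agent.V8H73.SE.ae_both hS hn (Pool.Agent.V8H73.SF.Kc ex τ)).2] with c h1 h2 h3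
    exact iso_of hS hn hex hτ hker h1 h2 (h3.2.comp Sum.inl Sum.inl_injective)

end Pool.Agent.Results.MP_209724_lc.IsomorphismOnPoints
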