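import Pool.Agent.V8H78.PA.Mat
import Pool.Agent.Results.MP_209724_lc.RandomCombinations

/-!
# The axiom (SC) in bounded degree for combinations whose coefficients are close to almost any point over several primes

For every `j ≤ n` let `x_{j,1}, …, x_{j,k}` be arbitrary complex numbers which are linearly independent over `ℚ` (for
different `j` they may be the same), and let

  `z_j = ζ_j + a_{j,1} x_{j,1} + ⋯ + a_{j,k} x_{j,k}`

with integers `a_{j,t}` and arbitrary complex numbers `ζ_j`, for instance `0`. Schanuel's conjecture, the axiom (SC), says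
that the `2 n` numbers `z_1, …, z_n, e^{z_1}, …, e^{z_n}` have transcendence degree at least `n` if the `z_j` are linearly
independent.

Let `P_1, …, P_r` be primes and `y = (y_1, …, y_r)`, `y_i` an `n × k` matrix of integers of `ℚ_(P_i)`. We consider the
integer matrices `a` which are close to `y` at all the `r` primes, `|y_i - a|_(P_i) ≤ c |a| ^ (-τ)` for `i = 1, …, r`. For
`τ = 1 / r` examples are the residues of `y` modulo `M`, `M = ∏ P_i ^ (e_i)` with `P_i ^ (e_i) ≤ κ P_l ^ (e_l)` for all `i`,
`l`: one matrix for each such number `M`, by the Chinese remainder theorem; for `r = 1` these are the truncations of the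
padic expansions.

**Theorem.** For every degree bound `D` there are `k₀` and `δ > 0`, which depend only on `n`, `D` and `l`, such that for all
`k ≥ k₀` and all `x` one can choose for every `j` one of the two numbers `z_j`, `e^{z_j}` (the choice depends on `x` only)
with the following property. Let `s_1, …, s_l` be numbers which satisfy no nonzero polynomial relation with algebraic
coefficients of degree at most `D` in each of them. Then for all `ζ` and all points `y` outside a set of Hausdorff
dimension at most `(n k - δ k) / τ`, which is less than the dimension `r n k` of the space for `τ = 1 / r`, the same is true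
of `s_1, …, s_l` together with the `n` chosen numbers for ALL large matrices `a` close to `y`, in particular for the matrices
of the residues of `y` modulo all large numbers `M` as above.

The residues of a fixed point modulo the powers of `p` are a very sparse sequence, about `log T` matrices of norm at most
`T`, and so this does not follow from the size of the exceptional set.

Proof. The starting theorem `RandomCombinations` of this problem bounds the number of exceptional matrices with entries in
`[-T, T]` by `C T^(n k - δ k)`; the rest is a version for several primes of the tool `Pool.Agent.N575.PA` of helper575.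
-/

set_option autoImplicit false

namespace Pool.Agent.Results.MP_209724_lc.PadicCombinations

open Pool.Agent.N671.DA (mat shrink)
open Pool.Agent.V8H78.PA (adic_vectors residues Residues thin_mat)
open Pool.Agent.Results.MP_209724_lc.RandomCombinations (NoRelation comb)

/-- The numbers `s_1, …, s_l` together with the chosen numbers (`z_j` if `c_j` is true and `e^{z_j}` otherwise), for the
matrix `a` of coefficients, satisfy no nonzero polynomial relation with algebraic coefficients of degree at most `D` in each
of them. -/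
def Good (D : ℕ) {l n k : ℕ} (s : Fin l → ℂ) (ζ : Fin n → ℂ) (x : Fin n → Fin k → ℂ) (c : Fin n → Bool)
    (a : Fin n → Fin k → ℚ) : Prop :=
  NoRelation D (Sum.elim s (fun j => if c j = true then comb ζ x a j else Complex.exp (comb ζ x a j)))

/-- **(SC) in bounded degree for coefficients near almost any point over several primes.** For all `n ≥ 1`, `l` and `D` there
are `k₀` and `δ > 0` such that for all `k ≥ k₀` and all complex `x_{j,t}`, `j ≤ n`, `t ≤ k`, with `x_{j,1}, …, x_{j,k}` linearly
independent over `ℚ` for every `j`, there is a choice `c` with the following property. Let `s_1, …, s_l` satisfy no relation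
of degree at most `D`, `ζ ∈ ℂ^n`, `P_1, …, P_r` primes and `τ > 0`. For all points `y = (y_1, …, y_r)`,
`y_i ∈ ℤ_(P_i)^(n k)`, outside a set of Hausdorff dimension at most `(n k - δ k) / τ`
(1) for all `κ` and all large integer matrices `a` (written as vectors `v` with `n k` coordinates, `a = mat v`) with
`|y_i - v|_(P_i) ≤ κ |v| ^ (-τ)` for `i = 1, …, r`, the matrix `a` is `Good`;
(2) if `r ≥ 1` and `τ = 1 / r` (the dimension is at most `r n k - r δ k`), then in particular for all `κ` and all large
`M = ∏ P_i ^ (e_i)` with `P_i ^ (e_i) ≤ κ P_l ^ (e_l)` for all `i`, `l` the matrix of the residues of `y` modulo `M` is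
`Good`. -/
theorem result (l n D : ℕ) (hn : 1 ≤ n) : ∃ (k₀ : ℕ) (δ : ℝ), 0 < δ ∧ ∀ k ≥ k₀, ∀ x : Fin n → Fin k → ℂ,
    (∀ j, LinearIndependent ℚ (x j)) → ∃ c : Fin n → Bool,
    ∀ s : Fin l → ℂ, NoRelation D s → ∀ ζ : Fin n → ℂ,
    ∀ (r : ℕ) (P : Fin r → ℕ) [∀ i, Fact (P i).Prime] (τ : ℝ), 0 < τ →
      ∃ E : Set (∀ i : Fin r, Fin (n * k) → ℤ_[P i]), dimH E ≤ ENNReal.ofReal (((n : ℝ) * k - δ * k) / τ) ∧
        ∀ y, y ∉ E →
          (∀ κ : ℝ, ∃ Q : ℝ, ∀ v : Fin (n * k) → ℤ, Q ≤ ‖v‖ →
            (∀ i t, ‖y i t - (v t : ℤ_[P i])‖ ≤ κ * ‖v‖ ^ (-τ)) → Good D s ζ x c (mat v)) ∧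
          (1 ≤ r → τ = 1 / (r : ℝ) → ∀ κ : ℝ, ∃ Q : ℝ, ∀ e : Fin r → ℕ,
            (∀ i l, (P i : ℝ) ^ e i ≤ κ * (P l : ℝ) ^ e l) → Q ≤ ∏ i, (P i : ℝ) ^ e i →
            ∀ v : Fin (n * k) → ℤ, Residues P y e v → Good D s ζ x c (mat v)) := by
  classical
  obtain ⟨k₀, C, δ, hδ, hR⟩ := RandomCombinations.result l n D
  refine ⟨max k₀ 1, min δ 1, lt_min hδ one_pos, fun k hk x hx => ?_⟩
  obtain ⟨c, hc⟩ := hR k ((le_max_left _ _).trans hk) x hx
  refine ⟨c, fun s hs ζ r P _ τ hτ => ?_⟩
  have hk1 : 1 ≤ k := (le_max_right _ _).trans hk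
  obtain ⟨Bad, hBad⟩ : ∃ Bad : (Fin n → Fin k → ℚ) → Prop, Bad = fun a => ¬ Good D s ζ x c a := ⟨_, rfl⟩
  obtain ⟨hs', hT⟩ := thin_mat (n := n) (k := k) (C₀ := (C : ℝ)) (δ := min δ 1)
    (Nat.one_le_iff_ne_zero.2 (by positivity)) Bad (Nat.cast_nonneg C) (min_le_right _ _)
    (fun A hA => by
      have h9 := (hc A hA s hs ζ).trans
        (shrink (n := n) (k := k) (δ := δ) (Nat.cast_nonneg C) hA.card_pos)
      refine le_trans (Nat.cast_le.2 (Finset.card_le_card ?_)) h9
      intro a ha
      rw [Finset.mem_filter] at ha ⊢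
      refine ⟨ha.1, ?_⟩
      have h10 := ha.2
      rw [hBad] at h10
      exact h10)
  obtain ⟨E, hE, hEint, hE2⟩ := adic_vectors P _ hs' hT hτ
  have hgood : ∀ v : Fin (n * k) → ℤ, v ∉ {v : Fin (n * k) → ℤ | Bad (mat v)} → Good D s ζ x c (mat v) := by
    intro v hv
    rw [hBad] at hv
    exact not_not.1 hv
  refine ⟨E, hE, fun y hy => ⟨fun κ => ?_, fun hr hτr κ => ?_⟩⟩
  · obtain ⟨Q, hQ⟩ := hE2 y hy κ
    exact ⟨Q, fun v hv h1 => hgood v (hQ v hv h1)⟩
  · obtain ⟨Q₁, hQ₁⟩ := hE2 y hy (|κ| + 1)
    obtain ⟨Q, hQ⟩ := residues hr P y (fun v hv => hy (by rw [hv]; exact hEint v)) κ Q₁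
    refine ⟨Q, fun e he hQe v hv => ?_⟩
    obtain ⟨h1, h2⟩ := hQ e he hQe v hv
    exact hgood v (hQ₁ v h1 (by rw [hτr]; exact h2))

end Pool.Agent.Results.MP_209724_lc.PadicCombinations
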